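import Pool.Agent.H76.PI.Defs
import Pool.Agent.H76.PI.Main

open MeasureTheory Set

namespace Pool.Agent.Results.MP_4a2ece_lc.Pi11Complete

universe u

/-- `C = C(Δ; L₁[0,1])`, the Banach lattice of continuous `L₁`-valued functions on the Cantor space
`Δ = ℕ → Bool` (supremum norm, pointwise order): `STM(C)` is `Π¹₁`-complete in `Subl(C)`. -/
theorem result :
    Pool.Agent.H76.PI.D.STMPi11Complete.{u} C(ℕ → Bool, Lp ℝ 1 (volume.restrict (Icc (0:ℝ) 1))) :=
  fun a ha => Pool.Agent.H76.PIM.main a ha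

end Pool.Agent.Results.MP_4a2ece_lc.Pi11Complete
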